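import Pool.Agent.TTC.StmtsF
import Pool.Agent.Helper27_TTC.BNF

/-!
Squad TTC (MP_160b6c_nt), row BN6: bounds for the resultants of a family of sextics.
-/

set_option autoImplicit false

namespace Pool.Agent.TTC.H52

open Polynomial Pool.Agent.TTC.H27

/-- functions of `F` with polynomial bounds -/
def Gd (k : ℕ) (Φ : (Fin 7 → ℤ[X]) → ℤ[X]) : Prop :=
  ∃ A : ℕ, ∀ (H : ℕ) (F : Fin 7 → ℤ[X]), 1 ≤ H → (∀ i, Siz k H (F i)) →
    Siz A (A * (H : ℤ) ^ A) (Φ F)

theorem gd_const (k : ℕ) (c : ℤ[X]) : Gd k fun _ => c := by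
  classical
  refine ⟨c.natDegree + ∑ n ∈ c.support, (c.coeff n).natAbs, fun H F hH _ =>
    ⟨Nat.le_add_right _ _, fun n => ?_⟩⟩
  have h1 : |c.coeff n| ≤ ((c.natDegree + ∑ n ∈ c.support, (c.coeff n).natAbs : ℕ) : ℤ) := by
    by_cases hn : n ∈ c.support
    · rw [Int.abs_eq_natAbs]
      have h2 : (c.coeff n).natAbs ≤ ∑ n ∈ c.support, (c.coeff n).natAbs :=
        Finset.single_le_sum (f := fun n => (c.coeff n).natAbs) (fun _ _ => Nat.zero_le _) hn
      exact_mod_cast h2.trans (Nat.le_add_left _ _)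
    · rw [notMem_support_iff.1 hn, abs_zero]
      exact Int.natCast_nonneg _
  refine h1.trans (le_mul_of_one_le_right (Int.natCast_nonneg _) ?_)
  exact one_le_pow₀ (by exact_mod_cast hH)

theorem gd_var (k : ℕ) (i : Fin 7) : Gd k fun F => F i := by
  refine ⟨k + 1, fun H F hH hF => ⟨(hF i).1.trans (Nat.le_succ k), fun n => ((hF i).2 n).trans ?_⟩⟩
  have h1 : (1 : ℤ) ≤ H := by exact_mod_cast hH
  have h2 : (H : ℤ) ≤ (H : ℤ) ^ (k + 1) := by
    calc (H : ℤ) = (H : ℤ) ^ 1 := (pow_one _).symm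
      _ ≤ _ := pow_le_pow_right₀ h1 (by omega)
  refine h2.trans (le_mul_of_one_le_left (by positivity) ?_)
  push_cast
  linarith [Int.natCast_nonneg k]

theorem gd_add {k : ℕ} {Φ Ψ : (Fin 7 → ℤ[X]) → ℤ[X]} (h : Gd k Φ) (h' : Gd k Ψ) :
    Gd k fun F => Φ F + Ψ F := by
  obtain ⟨A, hA⟩ := h
  obtain ⟨B, hB⟩ := h'
  refine ⟨A + B, fun H F hH hF => siz_mono (siz_add (hA H F hH hF) (hB H F hH hF)) le_rfl ?_⟩
  have h1 : (1 : ℤ) ≤ H := by exact_mod_cast hH
  have h2 : (H : ℤ) ^ A ≤ (H : ℤ) ^ (A + B) := pow_le_pow_right₀ h1 (Nat.le_add_right _ _)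
  have h3 : (H : ℤ) ^ B ≤ (H : ℤ) ^ (A + B) := pow_le_pow_right₀ h1 (Nat.le_add_left _ _)
  push_cast
  rw [add_mul]
  exact add_le_add (mul_le_mul_of_nonneg_left h2 (Int.natCast_nonneg _))
    (mul_le_mul_of_nonneg_left h3 (Int.natCast_nonneg _))

theorem gd_mul {k : ℕ} {Φ Ψ : (Fin 7 → ℤ[X]) → ℤ[X]} (h : Gd k Φ) (h' : Gd k Ψ) :
    Gd k fun F => Φ F * Ψ F := by
  obtain ⟨A, hA⟩ := h
  obtain ⟨B, hB⟩ := h'
  refine ⟨(A + 1) * (A * B) + (A + B), fun H F hH hF =>
    siz_mono (siz_mul (by positivity) (hA H F hH hF) (hB H F hH hF))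
      (Nat.le_add_left _ _) ?_⟩
  have h1 : (1 : ℤ) ≤ H := by exact_mod_cast hH
  have h2 : (H : ℤ) ^ (A + B) ≤ (H : ℤ) ^ ((A + 1) * (A * B) + (A + B)) :=
    pow_le_pow_right₀ h1 (Nat.le_add_left _ _)
  have h3 : ((A : ℤ) + 1) * (A * (H : ℤ) ^ A * (B * (H : ℤ) ^ B)) =
      (((A + 1) * (A * B) : ℕ) : ℤ) * (H : ℤ) ^ (A + B) := by
    push_cast
    ring
  rw [h3]
  refine mul_le_mul ?_ h2 (by positivity) (by positivity)
  exact_mod_cast Nat.le_add_right _ _

/-! ### classes of functions closed under the ring operations -/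

section cls

variable {α S : Type} [CommRing S] {P : (α → S) → Prop}

theorem cl_sum (hc : ∀ c : S, P fun _ => c) (ha : ∀ f g : α → S, P f → P g → P fun x => f x + g x)
    {β : Type} (s : Finset β) {Φ : β → α → S} (h : ∀ b, P (Φ b)) :
    P fun x => ∑ b ∈ s, Φ b x := by
  classical
  induction s using Finset.induction_on with
  | empty => simpa using hc 0
  | insert b s hb ih =>
    have h1 : (fun x => ∑ b ∈ insert b s, Φ b x) = fun x => Φ b x + ∑ b ∈ s, Φ b x := by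
      funext x
      exact Finset.sum_insert hb
    rw [h1]
    exact ha _ _ (h b) ih

theorem cl_prod (hc : ∀ c : S, P fun _ => c) (hm : ∀ f g : α → S, P f → P g → P fun x => f x * g x)
    {β : Type} (s : Finset β) {Φ : β → α → S} (h : ∀ b, P (Φ b)) :
    P fun x => ∏ b ∈ s, Φ b x := by
  classical
  induction s using Finset.induction_on with
  | empty => simpa using hc 1
  | insert b s hb ih =>
    have h1 : (fun x => ∏ b ∈ insert b s, Φ b x) = fun x => Φ b x * ∏ b ∈ s, Φ b x := by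
      funext x
      exact Finset.prod_insert hb
    rw [h1]
    exact hm _ _ (h b) ih

theorem cl_det (hc : ∀ c : S, P fun _ => c) (ha : ∀ f g : α → S, P f → P g → P fun x => f x + g x)
    (hm : ∀ f g : α → S, P f → P g → P fun x => f x * g x) {n : ℕ}
    {M : α → Matrix (Fin n) (Fin n) S} (h : ∀ i j, P fun x => M x i j) : P fun x => (M x).det := by
  have h1 : (fun x => (M x).det) = fun x => ∑ σ : Equiv.Perm (Fin n),
      (((Equiv.Perm.sign σ : ℤ) : S) * ∏ i, M x (σ i) i) := by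
    funext x
    rw [Matrix.det_apply]
    refine Finset.sum_congr rfl fun σ _ => ?_
    rw [Units.smul_def, zsmul_eq_mul]
  rw [h1]
  exact cl_sum hc ha _ fun σ => hm _ _ (hc _) (cl_prod hc hm _ fun i => h _ _)

theorem cl_res (hc : ∀ c : S, P fun _ => c) (ha : ∀ f g : α → S, P f → P g → P fun x => f x + g x)
    (hm : ∀ f g : α → S, P f → P g → P fun x => f x * g x) {m n : ℕ} {p q : α → S[X]}
    (hp : ∀ l, P fun x => (p x).coeff l) (hq : ∀ l, P fun x => (q x).coeff l) :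
    P fun x => resultant (p x) (q x) m n := by
  unfold resultant
  refine cl_det hc ha hm fun i j => ?_
  unfold sylvester
  simp only [Matrix.of_apply]
  refine Fin.addCases (fun j₁ => ?_) (fun j₁ => ?_) j
  · simp only [Fin.addCases_left]
    split_ifs
    · exact hq _
    · exact hc 0
  · simp only [Fin.addCases_right]
    split_ifs
    · exact hp _
    · exact hc 0

end cls

/-- polynomials with good coefficients -/
def Gp (k : ℕ) (p : (Fin 7 → ℤ[X]) → ℤ[X][X]) : Prop := ∀ n, Gd k fun F => (p F).coeff n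

theorem gp_const (k : ℕ) (p : ℤ[X][X]) : Gp k fun _ => p := fun _ => gd_const k _

theorem gp_add {k : ℕ} (p q : (Fin 7 → ℤ[X]) → ℤ[X][X]) (hp : Gp k p) (hq : Gp k q) :
    Gp k fun F => p F + q F := by
  intro n
  simp only [coeff_add]
  exact gd_add (hp n) (hq n)

theorem gp_mul {k : ℕ} (p q : (Fin 7 → ℤ[X]) → ℤ[X][X]) (hp : Gp k p) (hq : Gp k q) :
    Gp k fun F => p F * q F := by
  intro n
  simp only [coeff_mul]
  exact cl_sum (P := Gd k) (gd_const k) (fun _ _ h h' => gd_add h h') _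
    fun x => gd_mul (hp x.1) (hq x.2)

theorem gp_C {k : ℕ} {c : (Fin 7 → ℤ[X]) → ℤ[X]} (hc : Gd k c) : Gp k fun F => C (c F) := by
  intro n
  simp only [coeff_C]
  split_ifs
  · exact hc
  · exact gd_const k 0

theorem gp_cX {k : ℕ} (i : Fin 7) (m : ℕ) : Gp k fun F => C (F i) * X ^ m :=
  gp_mul _ _ (gp_C (gd_var k i)) (gp_const k _)

theorem gp_sext (k : ℕ) : Gp k fun F => sext F := by
  have h5 : Gp k fun F => C (F 5) * X := gp_mul _ _ (gp_C (gd_var k 5)) (gp_const k _)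
  exact gp_add _ _ (gp_add _ _ (gp_add _ _ (gp_add _ _ (gp_add _ _ (gp_add _ _ (gp_cX 0 6)
    (gp_cX 1 5)) (gp_cX 2 4)) (gp_cX 3 3)) (gp_cX 4 2)) h5) (gp_C (gd_var k 6))

theorem gp_der {k : ℕ} {p : (Fin 7 → ℤ[X]) → ℤ[X][X]} (hp : Gp k p) :
    Gp k fun F => derivative (p F) := by
  intro n
  simp only [coeff_derivative]
  exact gd_mul (hp _) (gd_const k _)

theorem gp_crit (k : ℕ) : Gp k fun F => crit F := by
  refine cl_res (P := Gp k) (gp_const k) gp_add gp_mul (fun l => ?_) (fun l => ?_)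
  · simp only [coeff_map]
    exact gp_C (gp_der (gp_sext k) l)
  · have h1 : (fun F : Fin 7 → ℤ[X] => (C (X : ℤ[X][X]) -
        (sext F).map (C : ℤ[X] →+* ℤ[X][X])).coeff l) =
        fun F => (C (X : ℤ[X][X]) : ℤ[X][X][X]).coeff l + (-1) * C ((sext F).coeff l) := by
      funext F
      rw [coeff_sub, coeff_map]
      ring
    rw [h1]
    exact gp_add _ _ (gp_const k _) (gp_mul _ _ (gp_const k _) (gp_C (gp_sext k l)))

theorem gd_crit (k n : ℕ) : Gd k fun F => (crit F).coeff n := gp_crit k n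

theorem gd_d6 (k : ℕ) : Gd k fun F => d6 F := by
  unfold d6
  exact gd_crit k 0

/-- `6 x y` with the operations of an arbitrary ring -/
def gmul {R : Type} [CommRing R] (x y : R) : R := 6 * x * y

theorem e6_gen {R : Type} [CommRing R] (a : Fin 7 → R) : e6 a = gmul (a 0) ((crit a).coeff 1) :=
  rfl

theorem gmul_eq (x y : ℤ[X]) : gmul x y = C 6 * (x * y) := by
  unfold gmul
  rw [mul_assoc]
  congr 1

theorem gd_gmul {k : ℕ} {Φ : (Fin 7 → ℤ[X]) → ℤ[X]} (h : Gd k Φ) :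
    Gd k fun F => gmul (F 0) (Φ F) := by
  have h1 : (fun F : Fin 7 → ℤ[X] => gmul (F 0) (Φ F)) = fun F => C 6 * (F 0 * Φ F) :=
    funext fun F => gmul_eq _ _
  rw [h1]
  exact gd_mul (gd_const k _) (gd_mul (gd_var k 0) h)

theorem gd_e6 (k : ℕ) : Gd k fun F => e6 F := by
  have h1 : (fun F : Fin 7 → ℤ[X] => e6 F) = fun F => gmul (F 0) ((crit F).coeff 1) :=
    funext fun F => e6_gen F
  rw [h1]
  exact gd_gmul (gd_crit k 1)

theorem bn6 : Bn6Stmt := by
  intro k
  obtain ⟨A, hA⟩ := gd_d6 k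
  obtain ⟨B, hB⟩ := gd_e6 k
  refine ⟨A + B, fun H F hH hF => ⟨?_, ?_⟩⟩
  · exact siz_mono (hA H F hH hF) (Nat.le_add_right _ _) (pw hH (Nat.le_add_right _ _))
  · exact siz_mono (hB H F hH hF) (Nat.le_add_left _ _) (pw hH (Nat.le_add_left _ _))

end Pool.Agent.TTC.H52
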